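import Mathlib
import Pool.Agent.Q307.Lip.Basic
import Pool.Agent.Q307.Lip.Null
import Pool.Agent.Q307.Lip.Local

/-!
# The weak Lipschitz Baumgartner axiom for Baire space implies `add(N) > ℵ₁`

Let `g_η`, `η < ω₁`, be functions from `ω` to `ω`. Choose enumerations `e_ξ` of `ξ + 1` in type `ω`
and let `b_ξ(n)` be a code of `(g_{e_ξ(0)}(n), …, g_{e_ξ(n)}(n))` (and of the `n`-th digit of a point
`z_ξ` of Cantor space, which makes the `b_ξ` different modulo finite). Let `B` be the set of all
finite modifications of the `b_ξ` and let `A` be the set of all finite modifications of the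
members of a subset `A₀` of Cantor space of size `ℵ₁`. If `f` is Lipschitz and injective on `A`
and maps `A` into `B`, then `f(x)(n)` has at most `2^(n+1)` values for `x` in Cantor space. As
`f[A₀]` is uncountable, for uncountably many `ξ` the value `b_ξ(n)` is among these for almost all
`n`. Decoding yields a slalom of width `(n+1)2^(n+1)` which captures all `g_η`. Now the easy
direction of Bartoszyński's theorem on localisation applies.
-/

set_option autoImplicit false

namespace Pool.Agent.Results.MP_84ba36_lc.AddNull

open Cardinal Pool.Agent.Q307.Lip

theorem result : BALip ℕ → ℵ₁ < addNull := addNull_of_ba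

end Pool.Agent.Results.MP_84ba36_lc.AddNull
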