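import Mathlib
import Pool.Agent.Q307.Lip.Basic
import Pool.Agent.Q307.Lip.Powers

/-!
# The weak Lipschitz Baumgartner axioms imply `2^ℵ₀ = 2^ℵ₁`

Let `Z` be Baire space or Cantor space. For every `ξ < ω₁` and `Y ⊆ ξ + 1` choose a point `β(ξ, Y)`
of `Z`, such that different pairs get points which differ infinitely often. For `X ⊆ ω₁` let `B_X`
be the set of all finite modifications of the points `β(ξ, X ∩ (ξ + 1))`, `ξ < ω₁`. It is
`ℵ₁`-dense, so there is a Lipschitz map `f_X` which is injective on a fixed `ℵ₁`-dense set `A` and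
maps it into `B_X`. As `f_X[A]` is uncountable, uncountably many `ξ` occur in it, so `X` can be
recovered from `f_X`. There are only `2^ℵ₀` Lipschitz maps.
-/

set_option autoImplicit false

namespace Pool.Agent.Results.MP_84ba36_lc.PowersEqual

open Cardinal Pool.Agent.Q307.Lip

theorem result : (BALip ℕ → (2 : Cardinal.{0}) ^ ℵ₀ = 2 ^ ℵ₁) ∧
    (BALip Bool → (2 : Cardinal.{0}) ^ ℵ₀ = 2 ^ ℵ₁) :=
  ⟨powers_of_ba ℕ, powers_of_ba Bool⟩

end Pool.Agent.Results.MP_84ba36_lc.PowersEqual
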